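import Pool.Agent.TH541.KM.Main3

set_option autoImplicit false

namespace Pool.Agent.Results.MP_fc0265_gt.KacMoodyNotFG

open Pool.Agent.TH541.KM

/-- For every `n ≥ 3` and every indecomposable `n × n` generalized Cartan matrix `A` of indefinite
type, and for every choice of the torus (of rank `n + c`, with pairing `B`), the rational
cohomology ring of the classifying space of the Kac-Moody group of `A` is not finitely
generated. -/
theorem result (n c : ℕ) (hn : 3 ≤ n) (A : Matrix (Fin n) (Fin n) ℤ) (hA : IsGCM A)
    (hind : IsIndecomposable A) (hindef : IsIndefinite A) (B : Matrix (Fin c) (Fin n) ℚ) :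
    ¬ Algebra.FiniteType ℚ (KMCohomology A B) :=
  km_main hn hA hind hindef B

end Pool.Agent.Results.MP_fc0265_gt.KacMoodyNotFG
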